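import Mathlib
import Pool.Agent.H90.GqDefs
import Pool.Agent.H90.NqDefs
import Pool.Agent.H90.NqB

namespace Pool.Agent.Results.MP_142f15_an.NoConst

open Pool.Agent.H90.Gq

theorem result (𝕜 : Type) [RCLike 𝕜] :
    ∃ (X : Type) (_ : NormedAddCommGroup X) (_ : NormedSpace 𝕜 X) (_ : CompleteSpace X),
      ∀ C : ℝ, ∃ (e : ℕ → X) (f : ℕ → X →L[𝕜] 𝕜), IsBasis e f ∧ NU e f ∧
        ∀ N : Seminorm 𝕜 X, EquivNorm N → ¬QGLC N e f C := by
  refine ⟨lp (fun _ : ℕ => 𝕜) 1, inferInstance, inferInstance, inferInstance, fun C => ?_⟩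
  obtain ⟨M, hM⟩ := exists_nat_ge (4 * (1 + max C 0))
  have h2 : 2 ≤ M := by
    have : (0 : ℝ) ≤ max C 0 := le_max_right _ _
    exact_mod_cast (by linarith : (2 : ℝ) ≤ M)
  exact ⟨_, _, (l1_lp 𝕜).basis (M := M), (l1_lp 𝕜).nu h2, fun N hN => (l1_lp 𝕜).notq C hM N hN⟩

end Pool.Agent.Results.MP_142f15_an.NoConst
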